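import Pool.Agent.Helper60.BFT.AvBasic
import Pool.Agent.Helper60.BFT.Goals

/-!
# The hybrid Banks-Ford-Tao model and large gaps: definitions
-/

set_option autoImplicit false

open Finset Filter Topology MeasureTheory ProbabilityTheory
open Pool.Agent.Helper60.BFT (root cls Av Adapted Uni LAWG)

namespace Pool.Agent.Helper48.CR

/-- `n` is chosen: it avoids the removed class modulo every prime `p ≤ Z n` -/
def Mem (K : ℕ) (Z : ℕ → ℕ) (β : ℕ → ℕ → (ℕ → ℕ) → ℕ) (a : ℕ → ℕ) (n : ℕ) : Prop :=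
  ∀ p : ℕ, p.Prime → p ≤ Z n → ¬ n ≡ cls K β a n p [MOD p]

/-- the primes `r < p ≤ z` -/
def pr (r z : ℕ) : Finset ℕ := (Finset.Ioc r z).filter Nat.Prime

/-- `∏_{p ≤ z} (1 - 1 / p)` -/
noncomputable def V (z : ℕ) : ℝ := ∏ p ∈ pr 0 z, (1 - 1 / (p : ℝ))

/-- admissible cutoffs -/
structure Cut (Z : ℕ → ℕ) : Prop where
  mono : Monotone Z
  le : ∀ n, Z n ≤ n
  lim : Tendsto (fun n : ℕ => V (Z n) * Real.log n) atTop (𝓝 1)

/-- `n` is chosen and the gap after `n` is `≥ c (log n) ^ 2` -/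
def Bg (K : ℕ) (Z : ℕ → ℕ) (β : ℕ → ℕ → (ℕ → ℕ) → ℕ) (c : ℝ) (a : ℕ → ℕ) (n : ℕ) : Prop :=
  Mem K Z β a n ∧ ∀ m : ℕ, n < m → (m : ℝ) < n + 1 + c * Real.log n ^ 2 → ¬ Mem K Z β a m

/-- `FL L j` is the probability that `j` points are all covered, if for each `x` in the list at most
one uncovered point is covered, each one with probability `x` -/
noncomputable def FL : List ℝ → ℕ → ℝ
  | [], j => if j = 0 then 1 else 0
  | x :: L, j => (1 - j * x) * FL L j + j * x * FL L (j - 1)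

noncomputable def FS (f : ℕ → ℝ) (S : Finset ℕ) (j : ℕ) : ℝ := FL (S.toList.map f) j

/-- `1 / (p - k)` -/
noncomputable def fu (k p : ℕ) : ℝ := 1 / ((p : ℝ) - k)

noncomputable def AvS (S : Finset ℕ) (f : (ℕ → ℕ) → ℝ) (a : ℕ → ℕ) : ℝ := Av S.toList f a

open Classical in
/-- indicator: the elements of `U` survive all `p ∈ S`, the elements of `T` are all killed by some
`p ∈ Sk` -/
noncomputable def ev (Sk S U T : Finset ℕ) (b : ℕ → ℕ) : ℝ :=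
  if (∀ p ∈ S, ∀ s ∈ U, ¬ s ≡ b p [MOD p]) ∧ (∀ x ∈ T, ∃ p ∈ Sk, x ≡ b p [MOD p]) then 1 else 0

/-- window length -/
noncomputable def yr (K : ℕ) (c : ℝ) (r : ℕ) : ℕ := ⌈c * Real.log (((r + 1) ^ K : ℕ) : ℝ) ^ 2⌉₊ + 1

open Classical in
/-- the elements of `(n, n + y]` surviving the classes `b` of the primes `≤ r` -/
noncomputable def sv (r : ℕ) (b : ℕ → ℕ) (y n : ℕ) : Finset ℕ :=
  (Finset.Ioc n (n + y)).filter (fun x => ∀ p : ℕ, p ≤ r → p.Prime → ¬ x ≡ b p [MOD p])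

/-- good starting points -/
def Gd (K : ℕ) (c : ℝ) (M r : ℕ) (b : ℕ → ℕ) (n : ℕ) : Prop :=
  r ^ K ≤ n ∧ n + yr K c r + 1 < (r + 1) ^ K ∧ (∀ p : ℕ, p ≤ r → p.Prime → ¬ n ≡ b p [MOD p]) ∧
    (sv r b (yr K c r) n).card ≤ M

noncomputable def Ms (K : ℕ) (c δ : ℝ) (r : ℕ) : ℕ :=
  ⌊(1 + δ) * (c * (K : ℝ) ^ 2 * Real.log r / 2)⌋₊

open Classical in
/-- number of large gaps in the block `[r ^ K, (r + 1) ^ K)` -/
noncomputable def BC (K : ℕ) (Z : ℕ → ℕ) (β : ℕ → ℕ → (ℕ → ℕ) → ℕ) (c : ℝ) (r : ℕ) (a : ℕ → ℕ) : ℕ :=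
  ((Finset.Ico (r ^ K) ((r + 1) ^ K)).filter
    (fun n => n + yr K c r + 1 < (r + 1) ^ K ∧ Bg K Z β c a n)).card

open Classical in
/-- integers `2 ≤ m ≤ Y` without prime factor `≤ z` -/
noncomputable def rough (z Y : ℕ) : Finset ℕ :=
  (Finset.Icc 2 Y).filter (fun m => ∀ p : ℕ, p.Prime → p ≤ z → ¬ p ∣ m)

end Pool.Agent.Helper48.CR
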