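import Pool.Agent.Helper48.CR.Goals

set_option autoImplicit false

open Finset Filter Topology

namespace Pool.Agent.Helper48.CR

theorem cut_example (h : MERTG) :
    Cut (fun n => ⌊(n : ℝ) ^ Real.exp (-Real.eulerMascheroniConstant)⌋₊) := by
  set θ := Real.exp (-Real.eulerMascheroniConstant) with hθ
  have hθ0 : 0 < θ := Real.exp_pos _
  have hγ : 0 < Real.eulerMascheroniConstant := by
    have := Real.one_half_lt_eulerMascheroniConstant
    linarith
  have hθ1 : θ < 1 := by
    rw [hθ, Real.exp_lt_one_iff]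
    linarith
  refine ⟨?_, ?_, ?_⟩
  · intro m n hmn
    apply Nat.floor_mono
    exact Real.rpow_le_rpow (Nat.cast_nonneg _) (by exact_mod_cast hmn) hθ0.le
  · intro n
    rcases Nat.eq_zero_or_pos n with rfl | hn
    · simp [Real.zero_rpow hθ0.ne']
    · have h1 : (1 : ℝ) ≤ n := by exact_mod_cast hn
      have h2 : (n : ℝ) ^ θ ≤ (n : ℝ) ^ (1 : ℝ) := Real.rpow_le_rpow_of_exponent_le h1 hθ1.le
      rw [Real.rpow_one] at h2
      exact (Nat.floor_mono h2).trans (by simp)
  · have hx : Tendsto (fun n : ℕ => (n : ℝ) ^ θ) atTop atTop :=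
      (tendsto_rpow_atTop hθ0).comp tendsto_natCast_atTop_atTop
    have hz : Tendsto (fun n : ℕ => ⌊(n : ℝ) ^ θ⌋₊) atTop atTop :=
      tendsto_nat_floor_atTop.comp hx
    have h1 := h.1.comp hz
    -- log floor x - log x -> 0
    have h2 : Tendsto (fun x : ℝ => Real.log ((⌊x⌋₊ : ℝ) / x)) atTop (𝓝 0) := by
      have := (Real.continuousAt_log one_ne_zero).tendsto.comp
        (tendsto_nat_floor_div_atTop (R := ℝ))
      rwa [Real.log_one] at this
    have h3 := h2.comp hx
    have hlog : Tendsto (fun n : ℕ => Real.log (n : ℝ)) atTop atTop :=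
      Real.tendsto_log_atTop.comp tendsto_natCast_atTop_atTop
    have h4 : Tendsto (fun n : ℕ => Real.log ((⌊(n : ℝ) ^ θ⌋₊ : ℝ) / (n : ℝ) ^ θ) / Real.log n + θ)
        atTop (𝓝 (0 + θ)) := (h3.div_atTop hlog).add tendsto_const_nhds
    rw [zero_add] at h4
    have h5 : Tendsto (fun n : ℕ => Real.log (⌊(n : ℝ) ^ θ⌋₊ : ℝ) / Real.log n) atTop (𝓝 θ) := by
      refine h4.congr' ?_
      filter_upwards [hlog.eventually_gt_atTop 0, hz.eventually_gt_atTop 0,
        hx.eventually_gt_atTop 0, eventually_gt_atTop 0] with n e1 e2 e3 e4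
      have e5 : (0 : ℝ) < (⌊(n : ℝ) ^ θ⌋₊ : ℝ) := by exact_mod_cast e2
      have e6 : (0 : ℝ) < n := by exact_mod_cast e4
      rw [Real.log_div e5.ne' e3.ne', Real.log_rpow e6]
      field_simp
      ring
    have h6 := h1.mul (h5.inv₀ hθ0.ne')
    rw [mul_inv_cancel₀ hθ0.ne'] at h6
    refine h6.congr' ?_
    have hz' : Tendsto (fun n : ℕ => Real.log (⌊(n : ℝ) ^ θ⌋₊ : ℝ)) atTop atTop :=
      Real.tendsto_log_atTop.comp (tendsto_natCast_atTop_atTop.comp hz)
    filter_upwards [hlog.eventually_gt_atTop 0, hz'.eventually_gt_atTop 0] with n e1 e2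
    simp only [Function.comp]
    rw [inv_div]
    field_simp

end Pool.Agent.Helper48.CR
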