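import Pool.Agent.Helper48.CR.PRB
import Pool.Agent.Helper48.CR.Ex
import Pool.Agent.Helper75.BFT.Law
import Pool.Agent.Helper26.CR.FB1
import Pool.Agent.Helper85.CR.FB2
import Pool.Agent.Helper8.CR.FB3
import Pool.Agent.Helper33.CR.FLOW
import Pool.Agent.Helper86.CR.FRAT
import Pool.Agent.Helper27.CR.AVP
import Pool.Agent.Helper90.CR.GEN
import Pool.Agent.Helper74.CR.TWO
import Pool.Agent.Helper6.CR.SEC
import Pool.Agent.Helper53.CR.NUM1
import Pool.Agent.Helper17.CR.ROUGH
import Pool.Agent.Helper73.CR.MID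
import Pool.Agent.Helper69.CR.BLKP
import Pool.Agent.Helper11.CR.NUM2
import Pool.Agent.Helper89.CR.NUM3
import Pool.Agent.Helper4.CR.FIN
import Pool.Agent.Helper84.CR.MERT
import Pool.Agent.Helper67.CR.DET
import Pool.Agent.Helper45.CR.COI

/-!
# Large gaps in the hybrid Banks-Ford-Tao model: assembly
-/

set_option autoImplicit false

namespace Pool.Agent.Helper48.CR

theorem prb' (hMERT : MERTG) (hDET : DETG) (hCOI : COIG) : PRBG :=
  prb Helper26.CR.fb1 (Helper90.CR.gen Helper27.CR.avp Helper85.CR.fb2)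
    (Helper74.CR.two Helper26.CR.fb1 Helper85.CR.fb2 (Helper8.CR.fb3 Helper26.CR.fb1 Helper85.CR.fb2)
      Helper27.CR.avp (Helper90.CR.gen Helper27.CR.avp Helper85.CR.fb2))
    Helper6.CR.sec (Helper86.CR.frat Helper26.CR.fb1) hCOI Helper69.CR.blkp hMERT
    (Helper53.CR.num1 Helper26.CR.fb1 Helper85.CR.fb2 (Helper33.CR.flow Helper26.CR.fb1) hMERT)
    hDET
    (Helper11.CR.num2 Helper26.CR.fb1 (Helper53.CR.num1 Helper26.CR.fb1 Helper85.CR.fb2
      (Helper33.CR.flow Helper26.CR.fb1) hMERT) hMERT)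
    Helper89.CR.num3

theorem main_of (hMERT : MERTG) (hDET : DETG) (hCOI : COIG) : MAING :=
  Helper4.CR.fin (prb' hMERT hDET hCOI) Helper69.CR.blkp Helper75.BFT.law

theorem mert' : MERTG := Helper84.CR.mert

theorem main_thm : MAING :=
  main_of Helper84.CR.mert (Helper67.CR.det Helper17.CR.rough_card Helper73.CR.mid Helper84.CR.mert)
    Helper45.CR.coi

end Pool.Agent.Helper48.CR
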