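import Pool.Agent.Helper48.CR.Defs

/-!
# The hybrid Banks-Ford-Tao model and large gaps: the steps
-/

set_option autoImplicit false

open Finset Filter Topology MeasureTheory ProbabilityTheory
open Pool.Agent.Helper60.BFT (root cls Av Adapted Uni LAWG)

namespace Pool.Agent.Helper48.CR

/-- FB1 -/
def FB1G : Prop := ∀ (L : List ℝ) (J : ℕ), (∀ x ∈ L, 0 ≤ x ∧ J * x ≤ 1) →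
  (∀ j ≤ J, 0 ≤ FL L j ∧ FL L j ≤ 1) ∧
  (∀ j, j + 1 ≤ J → FL L (j + 1) ≤ FL L j) ∧
  (∀ j, j + 2 ≤ J → FL L j * FL L (j + 2) ≤ FL L (j + 1) ^ 2) ∧
  (∀ i j, i + j ≤ J → FL L (i + j) ≤ FL L i * FL L j)

/-- FB2 -/
def FB2G : Prop :=
  (∀ (L L' : List ℝ) (j : ℕ), L.Perm L' → FL L j = FL L' j) ∧
  (∀ (f : ℕ → ℝ) (j : ℕ), FS f ∅ j = if j = 0 then 1 else 0) ∧
  (∀ (f : ℕ → ℝ) (S : Finset ℕ) (p j : ℕ), p ∉ S →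
    FS f (insert p S) j = (1 - j * f p) * FS f S j + j * f p * FS f S (j - 1))

/-- FB3 -/
def FB3G : Prop :=
  (∀ (S : Finset ℕ) (f g : ℕ → ℝ) (t : ℝ) (J : ℕ), 1 ≤ t →
    (∀ p ∈ S, 0 ≤ g p ∧ 0 ≤ f p ∧ g p ≤ t * f p ∧ J * (t * f p) ≤ 1) →
      ∀ j ≤ J, FS g S j ≤ t ^ j * FS f S j) ∧
  (∀ (S S' : Finset ℕ) (f : ℕ → ℝ) (J : ℕ), S' ⊆ S → (∀ p ∈ S, 0 ≤ f p ∧ J * f p ≤ 1) →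
    ∀ j ≤ J, FS f S' j ≤ FS f S j)

/-- FLOW -/
def FLOWG : Prop := ∀ (L0 L1 : List ℝ) (M : ℕ) (xmin xm δ : ℝ), 0 < xmin → 0 < δ → δ < 1 →
  (∀ x ∈ L0, xmin ≤ x ∧ x ≤ xm) → (∀ x ∈ L1, 0 ≤ x ∧ x ≤ xm) → 2 * M ≤ L0.length →
  M * (L0.length * xm) ≤ 1 / 2 → M * xm ≤ δ * (L0.length * xmin / 4) →
    ∀ j ≤ M, (1 - Real.exp (-((1 - δ) * L1.sum))) ^ j ≤ FL (L1 ++ L0) j

/-- FRAT -/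
def FRATG : Prop := ∀ (L : List ℝ) (M : ℕ) (α : ℝ), 0 < α →
  (∀ x ∈ L, 0 ≤ x ∧ ((2 * M : ℕ) : ℝ) * x ≤ 1) → α ^ (2 * M) ≤ FL L (2 * M) →
    ∀ j, 1 ≤ j → j ≤ M → α ^ 2 * FL L (j - 1) ≤ FL L j

/-- AVP -/
def AVPG : Prop :=
  (∀ (L L' : List ℕ), L.Nodup → L.Perm L' → ∀ (f : (ℕ → ℕ) → ℝ) (a : ℕ → ℕ),
    Av L f a = Av L' f a) ∧
  (∀ (f : (ℕ → ℕ) → ℝ) (a : ℕ → ℕ), AvS ∅ f a = f a) ∧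
  (∀ (S : Finset ℕ) (p : ℕ), p ∉ S → ∀ (f : (ℕ → ℕ) → ℝ) (a : ℕ → ℕ),
    AvS (insert p S) f a = (∑ c ∈ range p, AvS S f (Function.update a p c)) / (p : ℝ)) ∧
  (∀ (S T : Finset ℕ), Disjoint S T → ∀ (f : (ℕ → ℕ) → ℝ) (a : ℕ → ℕ),
    AvS (S ∪ T) f a = AvS S (fun b => AvS T f b) a) ∧
  (∀ (S : Finset ℕ) (h : ℕ → ℕ → ℝ) (a : ℕ → ℕ),
    AvS S (fun b => ∏ p ∈ S, h p (b p)) a = ∏ p ∈ S, ((∑ c ∈ range p, h p c) / (p : ℝ)))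

/-- GEN -/
def GENG : Prop := ∀ (S Sk : Finset ℕ), Sk ⊆ S → ∀ (U T : Finset ℕ), Disjoint U T →
  (∀ p ∈ S, U.card < p ∧ ∀ x ∈ U ∪ T, ∀ x' ∈ U ∪ T, x ≡ x' [MOD p] → x = x') → ∀ a : ℕ → ℕ,
    AvS S (ev Sk S U T) a = (∏ p ∈ S, (1 - (U.card : ℝ) / (p : ℝ))) * FS (fu U.card) Sk T.card

/-- TWO -/
def TWOG : Prop := ∀ (S Sk C : Finset ℕ), Sk ⊆ S → C ⊆ S → ∀ (r M : ℕ), 4 * M + 4 ≤ r →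
  (∀ p ∈ S, p.Prime ∧ r < p) → ∀ (s s' : ℕ) (A A' : Finset ℕ), A.card ≤ M → A'.card ≤ M →
  s ∉ A → s' ∉ A' → Disjoint (insert s A) (insert s' A') →
  (∀ p ∈ S, ∀ x ∈ insert s A, ∀ x' ∈ insert s A, x ≡ x' [MOD p] → x = x') →
  (∀ p ∈ S, ∀ x ∈ insert s' A', ∀ x' ∈ insert s' A', x ≡ x' [MOD p] → x = x') →
  (∀ p ∈ S \ C, ∀ x ∈ insert s A, ∀ x' ∈ insert s' A', ¬ x ≡ x' [MOD p]) →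
  ∀ B : ℝ, 1 ≤ B → (∀ j, 1 ≤ j → j ≤ M → FS (fu 1) (Sk \ C) (j - 1) ≤ B * FS (fu 1) (Sk \ C) j) →
  ∀ a : ℕ → ℕ, AvS S (fun b => ev Sk S {s} A b * ev Sk S {s'} A' b) a
    ≤ (1 + 2 * M * B ^ 2 / r) ^ C.card * (1 + 2 / r) ^ (2 * M) / (1 - 1 / r) ^ (2 * C.card) *
      (((∏ p ∈ S, (1 - 1 / (p : ℝ))) * FS (fu 1) Sk A.card) *
       ((∏ p ∈ S, (1 - 1 / (p : ℝ))) * FS (fu 1) Sk A'.card))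

open Classical in
/-- SEC -/
def SECG : Prop := ∀ (S : Finset ℕ), (∀ p ∈ S, p.Prime) → ∀ (G : Finset ℕ)
  (e : ℕ → (ℕ → ℕ) → ℝ) (a : ℕ → ℕ) (ρ : ℝ), 0 ≤ ρ → (∀ n ∈ G, ∀ b, e n b = 0 ∨ e n b = 1) →
  (∀ n ∈ G, ∀ n' ∈ G, n ≠ n' →
    AvS S (fun b => e n b * e n' b) a ≤ (1 + ρ) * (AvS S (e n) a * AvS S (e n') a)) →
  ∀ E : ℝ, 0 < E → E ≤ ∑ n ∈ G, AvS S (e n) a →
    AvS S (fun b => if ∑ n ∈ G, e n b < E / 2 then 1 else 0) a ≤ 4 / E + 4 * ρ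

/-- MERT -/
def MERTG : Prop :=
  Tendsto (fun z : ℕ => V z * Real.log z) atTop (𝓝 (Real.exp (-Real.eulerMascheroniConstant))) ∧
  ∀ Z : ℕ → ℕ, Cut Z → ∀ K : ℕ, 4 ≤ K →
    (∀ᶠ r : ℕ in atTop, r ^ 2 ≤ Z (r ^ K)) ∧
    Tendsto (fun r : ℕ => ∑ p ∈ pr r (Z (r ^ K)), 1 / (p : ℝ)) atTop
      (𝓝 (Real.log (K * Real.exp (-Real.eulerMascheroniConstant)))) ∧
    Tendsto (fun r : ℕ => ∏ p ∈ pr r (Z ((r + 1) ^ K)), (1 - 1 / (p : ℝ))) atTop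
      (𝓝 (Real.exp Real.eulerMascheroniConstant / K))

/-- NUM1 -/
def NUM1G : Prop := ∀ δ : ℝ, 0 < δ → ∃ K0 : ℕ, ∀ K ≥ K0, ∀ Z : ℕ → ℕ, Cut Z →
  ∀ᶠ r : ℕ in atTop, ∀ S' : Finset ℕ, S' ⊆ pr r (Z (r ^ K)) →
    ((pr r (Z (r ^ K)) \ S').card : ℝ) ≤ Real.log r ^ 7 → ∀ j : ℕ, (j : ℝ) ≤ Real.log r ^ 2 →
      Real.exp (-((1 + δ) * (Real.exp Real.eulerMascheroniConstant / K) * j)) ≤ FS (fu 1) S' j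

/-- ROUGH -/
def ROUGHG : Prop := ∀ c η ε : ℝ, 0 < c → 0 < η → 0 < ε → ∀ᶠ u : ℝ in atTop, ∀ Y z : ℕ,
  (Y : ℝ) ≤ c * u ^ 2 → η * u ≤ z →
    ((rough z Y).card : ℝ) ≤ (1 + ε) * (c * u ^ 2 / (2 * Real.log u))

open Classical in
/-- MID -/
def MIDG : Prop := ∀ δ : ℝ, 0 < δ → ∃ K' : ℕ, ∀ᶠ r : ℕ in atTop, ∀ z0 : ℕ,
  Real.sqrt (Real.log r) ≤ z0 → (z0 : ℝ) ≤ Real.log r ^ 2 → ∀ P n1 N : ℕ,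
  (∀ p ∈ pr z0 r, ¬ p ∣ P) → r ^ K' ≤ N → ∀ b : ℕ → ℕ,
    (1 - δ) * (N * ∏ p ∈ pr z0 r, (1 - 1 / (p : ℝ)))
      ≤ (((range N).filter (fun t => ∀ p ∈ pr z0 r, ¬ n1 + P * t ≡ b p [MOD p])).card : ℝ) ∧
    ∀ i : ℕ, 1 ≤ i → i < z0 ^ 3 →
      (((range N).filter (fun t => ∀ p ∈ pr z0 r, ¬ n1 + P * t ≡ b p [MOD p] ∧
          ¬ n1 + P * t + i ≡ b p [MOD p])).card : ℝ)
        ≤ (1 + δ) * (N * (∏ p ∈ pr z0 r, (1 - 1 / (p : ℝ))) ^ 2)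

/-- DET -/
def DETG : Prop := ∀ δ : ℝ, 0 < δ → ∃ K0 : ℕ, ∀ K ≥ K0, ∀ η : ℝ, 0 < η → η ≤ 1 / 32 →
  ∀ c : ℝ, 0 < c → ∀ᶠ r : ℕ in atTop, ∀ b : ℕ → ℕ, ∃ G : Finset ℕ,
    (∀ n ∈ G, Gd K c (Ms K c δ r) r b n) ∧
    (∀ n ∈ G, ∀ n' ∈ G, n < n' → n + 2 * yr K c r + 1 < n') ∧
    (r : ℝ) ^ ((1 - 2 * η) * K - 2) ≤ (G.card : ℝ)

/-- COI -/
def COIG : Prop := ∀ (K r M y n n' : ℕ) (S A A' : Finset ℕ), 1 ≤ r → (r + 1) ^ K ≤ r ^ (K + 1) →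
  (∀ p ∈ S, p.Prime ∧ r < p) → n + 2 * y + 1 < n' → n' + y < (r + 1) ^ K →
  A ⊆ Finset.Ioc n (n + y) → A' ⊆ Finset.Ioc n' (n' + y) → A.card ≤ M → A'.card ≤ M →
    ∃ C : Finset ℕ, C ⊆ S ∧ C.card ≤ K * (M + 1) ^ 2 ∧
      ∀ p ∈ S \ C, ∀ x ∈ insert n A, ∀ x' ∈ insert n' A', ¬ x ≡ x' [MOD p]

/-- BLKP -/
def BLKPG : Prop :=
  (∀ (K : ℕ) (Z : ℕ → ℕ) (β : ℕ → ℕ → (ℕ → ℕ) → ℕ), 1 ≤ K → Monotone Z → Adapted β →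
    ∀ c : ℝ, 0 < c → ∀ r M : ℕ, 1 ≤ r → r ≤ Z (r ^ K) → ∀ a b : ℕ → ℕ,
    (∀ q, q ∉ pr r (Z ((r + 1) ^ K)) → b q = a q) → ∀ n : ℕ, Gd K c M r (fun p => β r p a) n →
    ev (pr r (Z (r ^ K))) (pr r (Z ((r + 1) ^ K))) {n} (sv r (fun p => β r p a) (yr K c r) n) b = 1 →
      Bg K Z β c b n) ∧
  (∀ (K : ℕ) (Z : ℕ → ℕ) (β : ℕ → ℕ → (ℕ → ℕ) → ℕ), 1 ≤ K → Monotone Z → Adapted β →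
    ∀ c : ℝ, 0 < c → ∀ r : ℕ, 1 ≤ r → ∀ a a' : ℕ → ℕ,
    (∀ q ≤ max r (Z ((r + 1) ^ K)), a q = a' q) → BC K Z β c r a = BC K Z β c r a')

/-- NUM2 -/
def NUM2G : Prop := ∀ ε : ℝ, 0 < ε → ε < 1 → ∃ K0 : ℕ, ∀ K ≥ K0, ∀ Z : ℕ → ℕ, Cut Z →
  ∀ c : ℝ, 0 < c → c * Real.exp Real.eulerMascheroniConstant / 2 + ε < 1 → ∀ᶠ r : ℕ in atTop,
    2 * (r : ℝ) ^ (K * (1 - c * Real.exp Real.eulerMascheroniConstant / 2 - ε / 2))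
      ≤ (r : ℝ) ^ ((1 - 2 * (ε / 32)) * K - 2) *
        ((∏ p ∈ pr r (Z ((r + 1) ^ K)), (1 - 1 / (p : ℝ))) *
          FS (fu 1) (pr r (Z (r ^ K))) (Ms K c (ε / 24) r))

/-- NUM3 -/
def NUM3G : Prop := ∀ (K : ℕ) (c δ : ℝ), 0 < c → 0 < δ → ∀ᶠ r : ℕ in atTop,
  ((K * (Ms K c δ r + 1) ^ 2 : ℕ) : ℝ) ≤ Real.log r ^ 7 ∧
  ((2 * Ms K c δ r : ℕ) : ℝ) ≤ Real.log r ^ 2 ∧ 8 * Ms K c δ r + 8 ≤ r ∧ 2 * yr K c r + 2 ≤ r ∧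
  (r + 1) ^ K ≤ r ^ (K + 1) ∧
  ∀ C : ℕ, C ≤ K * (Ms K c δ r + 1) ^ 2 →
    (1 + 2 * (Ms K c δ r : ℝ) * 4 ^ 2 / r) ^ C * (1 + 2 / (r : ℝ)) ^ (2 * Ms K c δ r) /
      (1 - 1 / (r : ℝ)) ^ (2 * C) ≤ 1 + (r : ℝ) ^ (-(1 / 2) : ℝ)

open Classical in
/-- PRB -/
def PRBG : Prop := ∀ ε : ℝ, 0 < ε → ∃ K0 : ℕ, ∀ K ≥ K0, ∀ Z : ℕ → ℕ, Cut Z →
  ∀ c : ℝ, 0 < c → c * Real.exp Real.eulerMascheroniConstant / 2 + ε < 1 → ∀ᶠ r : ℕ in atTop,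
    ∀ β : ℕ → ℕ → (ℕ → ℕ) → ℕ, Adapted β → ∀ a : ℕ → ℕ,
      AvS (pr r (Z ((r + 1) ^ K))) (fun b =>
        if (BC K Z β c r b : ℝ) <
          (r : ℝ) ^ (K * (1 - c * Real.exp Real.eulerMascheroniConstant / 2 - ε / 2))
          then 1 else 0) a ≤ (r : ℝ) ^ (-(1 / 4) : ℝ)

/-- the theorem -/
def MAING : Prop := ∀ ε : ℝ, 0 < ε → ∃ K0 : ℕ, ∀ K ≥ K0, ∀ Z : ℕ → ℕ, Cut Z →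
  ∀ β : ℕ → ℕ → (ℕ → ℕ) → ℕ, Adapted β →
  ∀ (Ω : Type) [MeasurableSpace Ω] (μ : Measure Ω) [IsProbabilityMeasure μ] (ω : ℕ → Ω → ℕ),
    Uni μ ω → ∀ c : ℝ, 0 < c → c * Real.exp Real.eulerMascheroniConstant / 2 + ε < 1 →
      ∀ᵐ w ∂μ, ∀ᶠ X : ℕ in atTop,
        (X : ℝ) ^ (1 - c * Real.exp Real.eulerMascheroniConstant / 2 - ε)
          ≤ (({n : ℕ | n ≤ X ∧ Bg K Z β c (fun p => ω p w) n} : Set ℕ).ncard : ℝ)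

end Pool.Agent.Helper48.CR
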