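import Pool.Agent.Helper48.CR.Final

/-!
# Cramér's inequality in a random sieve whose small primes are the true ones

The residue classes removed modulo the primes `p ≤ n ^ (1 / K)` are arbitrary (for instance the true
class `0`), the classes removed modulo the larger primes `p ≤ Z n` are random.
-/

set_option autoImplicit false

open Filter Topology MeasureTheory ProbabilityTheory

namespace Pool.Agent.Results.MP_69be96_nt.HybridSieve

/-- Admissible cutoffs: `Z` is monotone, `Z n ≤ n`, and the density `∏_{p ≤ Z n} (1 - 1 / p)` of the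
integers without prime factor `≤ Z n` is asymptotic to `1 / log n`. -/
def Cut (Z : ℕ → ℕ) : Prop :=
  Monotone Z ∧ (∀ n, Z n ≤ n) ∧
    Tendsto (fun n : ℕ => (∏ p ∈ (Finset.Ioc 0 (Z n)).filter Nat.Prime, (1 - 1 / (p : ℝ))) *
      Real.log n) atTop (𝓝 1)

/-- Independent residue classes, `ω p` uniform in `{0, …, p - 1}` for every prime `p`. -/
def Uni {Ω : Type} [MeasurableSpace Ω] (μ : Measure Ω) (ω : ℕ → Ω → ℕ) : Prop :=
  (∀ p, Measurable (ω p)) ∧ iIndepFun ω μ ∧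
    ∀ p : ℕ, p.Prime → ∀ c < p, μ {w | ω p w = c} = (p : ENNReal)⁻¹

/-- The classes `β r p` (`p ≤ r`) depend on the classes modulo `q ≤ r` only. -/
def Adapted (β : ℕ → ℕ → (ℕ → ℕ) → ℕ) : Prop :=
  ∀ r p : ℕ, p ≤ r → ∀ a a' : ℕ → ℕ, (∀ q ≤ r, a q = a' q) → β r p a = β r p a'

/-- `⌊n ^ (1 / K)⌋` -/
def root (K n : ℕ) : ℕ := Nat.findGreatest (fun r => r ^ K ≤ n) n

/-- The residue class removed modulo the prime `p` near `n`: `β r p a` for `p ≤ r = ⌊n ^ (1 / K)⌋`,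
and `a p` for the larger primes. -/
def cls (K : ℕ) (β : ℕ → ℕ → (ℕ → ℕ) → ℕ) (a : ℕ → ℕ) (n p : ℕ) : ℕ :=
  if p ≤ root K n then β (root K n) p a else a p

/-- `n` is chosen: it is in none of the classes removed modulo the primes `p ≤ Z n`. -/
def Chosen (K : ℕ) (Z : ℕ → ℕ) (β : ℕ → ℕ → (ℕ → ℕ) → ℕ) (a : ℕ → ℕ) (n : ℕ) : Prop :=
  ∀ p : ℕ, p.Prime → p ≤ Z n → ¬ n ≡ cls K β a n p [MOD p]

/-- `n` satisfies `P` and at least `c (log n) ^ 2` integers lie strictly between `n` and the next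
number satisfying `P`. -/
def BigGap (P : ℕ → Prop) (c : ℝ) (n : ℕ) : Prop :=
  P n ∧ ∀ m : ℕ, n < m → (m : ℝ) < n + 1 + c * Real.log n ^ 2 → ¬ P m

theorem result :
    Cut (fun n => ⌊(n : ℝ) ^ Real.exp (-Real.eulerMascheroniConstant)⌋₊) ∧
    ∀ ε : ℝ, 0 < ε → ∃ K0 : ℕ, ∀ K ≥ K0, ∀ Z : ℕ → ℕ, Cut Z →
      ∀ β : ℕ → ℕ → (ℕ → ℕ) → ℕ, Adapted β →
      ∀ (Ω : Type) [MeasurableSpace Ω] (μ : Measure Ω) [IsProbabilityMeasure μ] (ω : ℕ → Ω → ℕ),
      Uni μ ω → ∀ c : ℝ, 0 < c → c * Real.exp Real.eulerMascheroniConstant / 2 + ε < 1 →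
        ∀ᵐ w ∂μ, ∀ᶠ X : ℕ in atTop,
          (X : ℝ) ^ (1 - c * Real.exp Real.eulerMascheroniConstant / 2 - ε)
            ≤ (({n : ℕ | n ≤ X ∧ BigGap (Chosen K Z β (fun p => ω p w)) c n} : Set ℕ).ncard : ℝ) := by
  refine ⟨?_, ?_⟩
  · have h := Helper48.CR.cut_example Helper48.CR.mert'
    exact ⟨h.mono, h.le, h.lim⟩
  · intro ε hε
    obtain ⟨K0, h⟩ := Helper48.CR.main_thm ε hε
    refine ⟨K0, ?_⟩
    intro K hK Z hZ β hβ Ω _ μ _ ω hω c hc hcε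
    exact h K hK Z ⟨hZ.1, hZ.2.1, hZ.2.2⟩ β hβ Ω μ ω ⟨hω.1, hω.2.1, hω.2.2⟩ c hc hcε

end Pool.Agent.Results.MP_69be96_nt.HybridSieve
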