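import Pool.Agent.Helper48.CR.Goals

set_option autoImplicit false

open Finset Filter Topology MeasureTheory ProbabilityTheory
open Pool.Agent.Helper60.BFT (root cls Av Adapted Uni LAWG)

namespace Pool.Agent.Helper48.CR

theorem mem_pr {r z p : ℕ} : p ∈ pr r z ↔ r < p ∧ p ≤ z ∧ p.Prime := by
  unfold pr
  rw [Finset.mem_filter, Finset.mem_Ioc, and_assoc]

theorem ev_zero_one (Sk S U T : Finset ℕ) (b : ℕ → ℕ) : ev Sk S U T b = 0 ∨ ev Sk S U T b = 1 := by
  unfold ev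
  split_ifs
  · exact Or.inr rfl
  · exact Or.inl rfl

theorem sv_subset (r : ℕ) (b : ℕ → ℕ) (y n : ℕ) : sv r b y n ⊆ Finset.Ioc n (n + y) := by
  unfold sv
  exact Finset.filter_subset _ _

/-- elements of a short window are incongruent -/
theorem window_inj {n y p x x' : ℕ} (hp : y < p) (hx : x ∈ Finset.Icc n (n + y))
    (hx' : x' ∈ Finset.Icc n (n + y)) (h : x ≡ x' [MOD p]) : x = x' := by
  rw [Finset.mem_Icc] at hx hx'
  rcases le_total x x' with h1 | h1
  · have h2 : p ∣ x' - x := (Nat.modEq_iff_dvd' h1).1 h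
    rcases Nat.eq_zero_or_pos (x' - x) with h3 | h3
    · omega
    · have := Nat.le_of_dvd h3 h2
      omega
  · have h2 : p ∣ x - x' := (Nat.modEq_iff_dvd' h1).1 h.symm
    rcases Nat.eq_zero_or_pos (x - x') with h3 | h3
    · omega
    · have := Nat.le_of_dvd h3 h2
      omega

theorem insert_sub {r y n : ℕ} {b : ℕ → ℕ} {x : ℕ} (hx : x ∈ insert n (sv r b y n)) :
    x ∈ Finset.Icc n (n + y) := by
  rw [Finset.mem_insert] at hx
  rw [Finset.mem_Icc]
  rcases hx with rfl | hx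
  · omega
  · have := Finset.mem_Ioc.1 (sv_subset r b y n hx)
    omega

theorem not_mem_sv {r y n : ℕ} {b : ℕ → ℕ} : n ∉ sv r b y n := by
  intro h
  have := Finset.mem_Ioc.1 (sv_subset r b y n h)
  omega

theorem fu1_le {r p : ℕ} (hr : 1 ≤ r) (hp : r < p) : 0 ≤ fu 1 p ∧ fu 1 p ≤ 1 / (r : ℝ) := by
  unfold fu
  have h1 : (r : ℝ) + 1 ≤ p := by exact_mod_cast hp
  have h2 : (1 : ℝ) ≤ r := by exact_mod_cast hr
  push_cast
  constructor
  · apply div_nonneg zero_le_one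
    linarith
  · apply div_le_div_of_nonneg_left zero_le_one (by linarith) (by linarith)

theorem fu1_mul_le {r p J : ℕ} (hr : 1 ≤ r) (hp : r < p) (hJ : J ≤ r) : (J : ℝ) * fu 1 p ≤ 1 := by
  obtain ⟨h1, h2⟩ := fu1_le hr hp
  have h3 : (1 : ℝ) ≤ r := by exact_mod_cast hr
  have h4 : (J : ℝ) ≤ r := by exact_mod_cast hJ
  calc (J : ℝ) * fu 1 p ≤ r * (1 / r) := mul_le_mul h4 h2 h1 (by linarith)
    _ = 1 := by field_simp

open Classical in
theorem core (hFB1 : FB1G) (hGEN : GENG) (hTWO : TWOG) (hSEC : SECG) (hFRAT : FRATG)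
    (hCOI : COIG) (hBLK : BLKPG)
    (K : ℕ) (hK : 1 ≤ K) (Z : ℕ → ℕ) (hZ : Monotone Z) (c : ℝ) (hc : 0 < c) (r M : ℕ) (hr : 1 ≤ r)
    (hM : 8 * M + 8 ≤ r) (hy : 2 * yr K c r + 2 ≤ r) (hrK : (r + 1) ^ K ≤ r ^ (K + 1))
    (hrZ : r ≤ Z (r ^ K))
    (hlow : ∀ S' : Finset ℕ, S' ⊆ pr r (Z (r ^ K)) → (pr r (Z (r ^ K)) \ S').card ≤ K * (M + 1) ^ 2 →
      (1 / 2 : ℝ) ^ (2 * M) ≤ FS (fu 1) S' (2 * M))
    (ρ : ℝ) (hρ : 0 ≤ ρ)
    (hρ' : ∀ C : ℕ, C ≤ K * (M + 1) ^ 2 → (1 + 2 * (M : ℝ) * 4 ^ 2 / r) ^ C *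
      (1 + 2 / (r : ℝ)) ^ (2 * M) / (1 - 1 / (r : ℝ)) ^ (2 * C) ≤ 1 + ρ)
    (T : ℝ) (hT : 0 < T) (β : ℕ → ℕ → (ℕ → ℕ) → ℕ) (hβ : Adapted β) (a : ℕ → ℕ) (G : Finset ℕ)
    (hG : ∀ n ∈ G, Gd K c M r (fun p => β r p a) n)
    (hG2 : ∀ n ∈ G, ∀ n' ∈ G, n < n' → n + 2 * yr K c r + 1 < n')
    (hE : 2 * T ≤ G.card * ((∏ p ∈ pr r (Z ((r + 1) ^ K)), (1 - 1 / (p : ℝ))) *
      FS (fu 1) (pr r (Z (r ^ K))) M)) :
    AvS (pr r (Z ((r + 1) ^ K))) (fun b => if (BC K Z β c r b : ℝ) < T then 1 else 0) a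
      ≤ 2 / T + 4 * ρ := by
  set S := pr r (Z ((r + 1) ^ K)) with hSdef
  set Sk := pr r (Z (r ^ K)) with hSkdef
  set b0 : ℕ → ℕ := fun p => β r p a with hb0
  set y := yr K c r with hy0
  set A : ℕ → Finset ℕ := fun n => sv r b0 y n with hA
  set e : ℕ → (ℕ → ℕ) → ℝ := fun n => ev Sk S {n} (A n) with he
  set PS : ℝ := ∏ p ∈ S, (1 - 1 / (p : ℝ)) with hPS
  have hS : ∀ p ∈ S, p.Prime ∧ r < p := fun p hp => ⟨(mem_pr.1 hp).2.2, (mem_pr.1 hp).1⟩
  have hSkS : Sk ⊆ S := by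
    intro p hp
    have h1 := mem_pr.1 hp
    exact mem_pr.2 ⟨h1.1, h1.2.1.trans (hZ (Nat.pow_le_pow_left (Nat.le_succ r) K)), h1.2.2⟩
  have hSk : ∀ p ∈ Sk, p.Prime ∧ r < p := fun p hp => hS p (hSkS hp)
  have hP0 : 0 ≤ PS := by
    apply Finset.prod_nonneg
    intro p hp
    have h1 : (1 : ℝ) ≤ p := by exact_mod_cast (hS p hp).1.one_lt.le
    rw [sub_nonneg, div_le_one (by linarith)]
    exact h1
  -- properties of FS on Sk
  have hFBk : ∀ J ≤ r, (∀ x ∈ Sk.toList.map (fu 1), 0 ≤ x ∧ (J : ℝ) * x ≤ 1) := by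
    intro J hJ x hx
    rw [List.mem_map] at hx
    obtain ⟨p, hp, rfl⟩ := hx
    rw [Finset.mem_toList] at hp
    exact ⟨(fu1_le hr (hSk p hp).2).1, fu1_mul_le hr (hSk p hp).2 hJ⟩
  have hanti : ∀ j, j ≤ M → FS (fu 1) Sk M ≤ FS (fu 1) Sk j := by
    intro j hj
    have h1 := (hFB1 _ M (hFBk M (by omega))).2.1
    have h2 : ∀ i, j + i ≤ M → FS (fu 1) Sk (j + i) ≤ FS (fu 1) Sk j := by
      intro i
      induction i with
      | zero => intro _; exact le_rfl
      | succ i ih =>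
        intro hi
        exact (h1 (j + i) (by omega)).trans (ih (by omega))
    have h3 := h2 (M - j) (by omega)
    rwa [Nat.add_sub_cancel' hj] at h3
  have hnonneg : ∀ j, j ≤ M → 0 ≤ FS (fu 1) Sk j := fun j hj =>
    ((hFB1 _ M (hFBk M (by omega))).1 j hj).1
  have hAcard : ∀ n ∈ G, (A n).card ≤ M := fun n hn => (hG n hn).2.2.2
  -- the means
  have hone : ∀ n ∈ G, AvS S (e n) a = PS * FS (fu 1) Sk (A n).card := by
    intro n hn
    have h1 := hGEN S Sk hSkS {n} (A n) (by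
      rw [Finset.disjoint_singleton_left]
      exact not_mem_sv) (by
      intro p hp
      refine ⟨by rw [Finset.card_singleton]; exact (hS p hp).1.one_lt, ?_⟩
      intro x hx x' hx' hxx
      have hx1 : x ∈ Finset.Icc n (n + y) := insert_sub (by simpa using hx)
      have hx2 : x' ∈ Finset.Icc n (n + y) := insert_sub (by simpa using hx')
      exact window_inj (by have := (hS p hp).2; omega) hx1 hx2 hxx) a
    rw [Finset.card_singleton] at h1
    rw [he, h1, hPS]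
    norm_num
  have hsum : 2 * T ≤ ∑ n ∈ G, AvS S (e n) a := by
    refine hE.trans ?_
    rw [← nsmul_eq_mul]
    apply Finset.card_nsmul_le_sum
    intro n hn
    rw [hone n hn]
    exact mul_le_mul_of_nonneg_left (hanti _ (hAcard n hn)) hP0
  -- pairs
  have hpair : ∀ n ∈ G, ∀ n' ∈ G, n < n' →
      AvS S (fun b => e n b * e n' b) a ≤ (1 + ρ) * (AvS S (e n) a * AvS S (e n') a) := by
    intro n hn n' hn' hlt
    have hsp := hG2 n hn n' hn' hlt
    obtain ⟨C, hCS, hCc, hC⟩ := hCOI K r M y n n' S (A n) (A n') hr hrK hS hsp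
      (by have := (hG n' hn').2.1; omega) (sv_subset _ _ _ _) (sv_subset _ _ _ _) (hAcard n hn)
      (hAcard n' hn')
    have hdisj : Disjoint (insert n (A n)) (insert n' (A n')) := by
      rw [Finset.disjoint_left]
      intro x hx hx'
      have h1 := Finset.mem_Icc.1 (insert_sub hx)
      have h2 := Finset.mem_Icc.1 (insert_sub hx')
      omega
    have hB : ∀ j, 1 ≤ j → j ≤ M → FS (fu 1) (Sk \ C) (j - 1) ≤ 4 * FS (fu 1) (Sk \ C) j := by
      intro j hj hjM
      have h1 := hFRAT ((Sk \ C).toList.map (fu 1)) M (1 / 2) (by norm_num) (by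
        intro x hx
        rw [List.mem_map] at hx
        obtain ⟨p, hp, rfl⟩ := hx
        rw [Finset.mem_toList, Finset.mem_sdiff] at hp
        exact ⟨(fu1_le hr (hSk p hp.1).2).1, fu1_mul_le hr (hSk p hp.1).2 (by omega)⟩) (by
        apply hlow (Sk \ C) Finset.sdiff_subset
        refine le_trans ?_ hCc
        apply Finset.card_le_card
        intro p hp
        rw [Finset.mem_sdiff, Finset.mem_sdiff, not_and, not_not] at hp
        exact hp.2 hp.1) j hj hjM
      have h2 : ((1 : ℝ) / 2) ^ 2 * FS (fu 1) (Sk \ C) (j - 1) ≤ FS (fu 1) (Sk \ C) j := h1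
      linarith
    have h2 := hTWO S Sk C hSkS hCS r M (by omega) hS n n' (A n) (A n') (hAcard n hn)
      (hAcard n' hn') not_mem_sv not_mem_sv hdisj
      (fun p hp x hx x' hx' hxx => window_inj (by have := (hS p hp).2; omega) (insert_sub hx)
        (insert_sub hx') hxx)
      (fun p hp x hx x' hx' hxx => window_inj (by have := (hS p hp).2; omega) (insert_sub hx)
        (insert_sub hx') hxx) hC 4 (by norm_num) hB a
    refine h2.trans ?_
    rw [hone n hn, hone n' hn']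
    apply mul_le_mul_of_nonneg_right (hρ' C.card hCc)
    exact mul_nonneg (mul_nonneg hP0 (hnonneg _ (hAcard n hn)))
      (mul_nonneg hP0 (hnonneg _ (hAcard n' hn')))
  have hpair' : ∀ n ∈ G, ∀ n' ∈ G, n ≠ n' →
      AvS S (fun b => e n b * e n' b) a ≤ (1 + ρ) * (AvS S (e n) a * AvS S (e n') a) := by
    intro n hn n' hn' hne
    rcases lt_or_gt_of_ne hne with h | h
    · exact hpair n hn n' hn' h
    · have h1 := hpair n' hn' n hn h
      have h2 : (fun b => e n b * e n' b) = (fun b => e n' b * e n b) := by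
        funext b
        ring
      rw [h2, mul_comm (AvS S (e n) a)]
      exact h1
  have hsec := hSEC S (fun p hp => (hS p hp).1) G e a ρ hρ
    (fun n _ b => ev_zero_one _ _ _ _ _) hpair' (2 * T) (by linarith) hsum
  have h4 : 4 / (2 * T) + 4 * ρ = 2 / T + 4 * ρ := by
    congr 1
    field_simp
    norm_num
  rw [← h4]
  refine le_trans ?_ hsec
  unfold AvS
  apply Pool.Agent.Helper60.BFT.Av_mono' _ (Finset.nodup_toList _)
  intro b hb _
  have hb' : ∀ q, q ∉ S → b q = a q := fun q hq => hb q (by rwa [Finset.mem_toList])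
  have hle : ∑ n ∈ G, e n b ≤ (BC K Z β c r b : ℝ) := by
    have h5 : ∑ n ∈ G, e n b = ((G.filter (fun n => e n b = 1)).card : ℝ) := by
      rw [Finset.card_filter]
      push_cast
      apply Finset.sum_congr rfl
      intro n _
      rcases ev_zero_one Sk S {n} (A n) b with h | h
      · have h' : e n b = 0 := h
        rw [h']
        norm_num
      · have h' : e n b = 1 := h
        rw [h', if_pos rfl]
    rw [h5]
    unfold BC
    exact_mod_cast Finset.card_le_card (by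
      intro n hn
      rw [Finset.mem_filter] at hn
      rw [Finset.mem_filter, Finset.mem_Ico]
      have h6 := hG n hn.1
      refine ⟨⟨h6.1, by have := h6.2.1; omega⟩, h6.2.1, ?_⟩
      exact hBLK.1 K Z β hK hZ hβ c hc r M hr hrZ a b hb' n h6 hn.2)
  by_cases h : (BC K Z β c r b : ℝ) < T
  · rw [if_pos h, if_pos]
    have : 2 * T / 2 = T := by ring
    rw [this]
    exact lt_of_le_of_lt hle h
  · rw [if_neg h]
    split_ifs <;> norm_num

theorem exp_gamma_le_two : Real.exp Real.eulerMascheroniConstant ≤ 2 := by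
  have h1 := Real.eulerMascheroniConstant_lt_two_thirds
  have h2 := Real.log_two_gt_d9
  have h3 : Real.eulerMascheroniConstant ≤ Real.log 2 := by linarith
  calc Real.exp Real.eulerMascheroniConstant ≤ Real.exp (Real.log 2) := Real.exp_le_exp.2 h3
    _ = 2 := Real.exp_log (by norm_num)

theorem num_small {r : ℕ} (hr : 625 ≤ r) :
    2 / (r : ℝ) + 4 * (r : ℝ) ^ (-(1 / 2) : ℝ) ≤ (r : ℝ) ^ (-(1 / 4) : ℝ) := by
  have hr0 : (625 : ℝ) ≤ r := by exact_mod_cast hr
  have hr1 : (0 : ℝ) ≤ r := by linarith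
  set s : ℝ := (r : ℝ) ^ ((1 / 4 : ℝ)) with hs
  have hs5 : 5 ≤ s := by
    have h1 : (5 : ℝ) = (625 : ℝ) ^ ((1 / 4 : ℝ)) := by
      rw [show (625 : ℝ) = 5 ^ (4 : ℕ) by norm_num, ← Real.rpow_natCast, ← Real.rpow_mul (by norm_num)]
      norm_num
    rw [h1]
    exact Real.rpow_le_rpow (by norm_num) hr0 (by norm_num)
  have hs0 : 0 < s := by linarith
  have e1 : (r : ℝ) = s ^ 4 := by
    rw [hs, ← Real.rpow_natCast, ← Real.rpow_mul hr1]
    norm_num
  have e2 : (r : ℝ) ^ (-(1 / 4) : ℝ) = s⁻¹ := by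
    rw [hs, Real.rpow_neg hr1]
  have e3 : (r : ℝ) ^ (-(1 / 2) : ℝ) = (s ^ 2)⁻¹ := by
    rw [hs, Real.rpow_neg hr1, ← Real.rpow_natCast, ← Real.rpow_mul hr1]
    norm_num
  rw [e2, e3]
  rw [show (2 : ℝ) / (r : ℝ) = 2 / s ^ 4 by rw [← e1]]
  have h2 : 2 / s ^ 4 + 4 * (s ^ 2)⁻¹ = s⁻¹ * (2 / s ^ 3 + 4 / s) := by
    field_simp
  rw [h2]
  have h3 : 2 / s ^ 3 ≤ 2 / 5 ^ 3 := by
    apply div_le_div_of_nonneg_left (by norm_num) (by norm_num)
    exact pow_le_pow_left₀ (by norm_num) hs5 3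
  have h4 : 4 / s ≤ 4 / 5 := div_le_div_of_nonneg_left (by norm_num) (by norm_num) hs5
  have h5 : 2 / s ^ 3 + 4 / s ≤ 1 := by
    have : (2 : ℝ) / 5 ^ 3 + 4 / 5 ≤ 1 := by norm_num
    linarith
  calc s⁻¹ * (2 / s ^ 3 + 4 / s) ≤ s⁻¹ * 1 := mul_le_mul_of_nonneg_left h5 (inv_nonneg.2 hs0.le)
    _ = s⁻¹ := mul_one _

open Classical in
theorem prb (hFB1 : FB1G) (hGEN : GENG) (hTWO : TWOG) (hSEC : SECG) (hFRAT : FRATG)
    (hCOI : COIG) (hBLK : BLKPG) (hMERT : MERTG) (hNUM1 : NUM1G) (hDET : DETG) (hNUM2 : NUM2G)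
    (hNUM3 : NUM3G) : PRBG := by
  intro ε hε
  by_cases hε1 : ε < 1
  swap
  · refine ⟨0, ?_⟩
    intro K _ Z hZ c hc hcε
    exfalso
    have h1 := Real.exp_pos Real.eulerMascheroniConstant
    have h2 : 0 < c * Real.exp Real.eulerMascheroniConstant / 2 := by positivity
    linarith
  obtain ⟨K2, hK2⟩ := hNUM2 ε hε hε1
  obtain ⟨KD, hKD⟩ := hDET (ε / 24) (by positivity)
  obtain ⟨K1, hK1⟩ := hNUM1 1 one_pos
  refine ⟨max (max K2 KD) (max (max K1 8) ⌈32 / ε⌉₊), ?_⟩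
  intro K hK Z hZ c hc hcε
  have hKa : K2 ≤ K := le_trans (le_trans (le_max_left _ _) (le_max_left _ _)) hK
  have hKb : KD ≤ K := le_trans (le_trans (le_max_right _ _) (le_max_left _ _)) hK
  have hKc : K1 ≤ K :=
    le_trans (le_trans (le_max_left _ _) (le_trans (le_max_left _ _) (le_max_right _ _))) hK
  have hK8 : 8 ≤ K :=
    le_trans (le_trans (le_max_right _ _) (le_trans (le_max_left _ _) (le_max_right _ _))) hK
  have hKe : 32 / ε ≤ K := (Nat.le_ceil _).trans (by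
    exact_mod_cast (le_trans (le_trans (le_max_right _ _) (le_max_right _ _)) hK))
  have hKR : (8 : ℝ) ≤ K := by exact_mod_cast hK8
  have e1 := hK2 K hKa Z hZ c hc hcε
  have e2 := hKD K hKb (ε / 32) (by positivity) (by linarith) c hc
  have e3 := hK1 K hKc Z hZ
  have e4 := hNUM3 K c (ε / 24) hc (by positivity)
  have e5 := (hMERT.2 Z hZ K (by omega)).1
  filter_upwards [e1, e2, e3, e4, e5, eventually_ge_atTop 625] with r h1 h2 h3 h4 h5 h6
  intro β hβ a
  obtain ⟨G, hG, hG2, hGc⟩ := h2 (fun p => β r p a)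
  obtain ⟨h4a, h4b, h4c, h4d, h4e, h4f⟩ := h4
  set M := Ms K c (ε / 24) r with hM
  set T : ℝ := (r : ℝ) ^ (K * (1 - c * Real.exp Real.eulerMascheroniConstant / 2 - ε / 2)) with hT
  have hr0 : (625 : ℝ) ≤ r := by exact_mod_cast h6
  have hTr : (r : ℝ) ≤ T := by
    have h7 : (1 : ℝ) ≤ K * (1 - c * Real.exp Real.eulerMascheroniConstant / 2 - ε / 2) := by
      have h8 : ε / 2 ≤ 1 - c * Real.exp Real.eulerMascheroniConstant / 2 - ε / 2 := by linarith
      have h9 : 32 ≤ K * ε := by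
        rw [div_le_iff₀ hε] at hKe
        exact hKe
      have h10 : (K : ℝ) * (ε / 2) ≤
          K * (1 - c * Real.exp Real.eulerMascheroniConstant / 2 - ε / 2) :=
        mul_le_mul_of_nonneg_left h8 (by linarith)
      linarith
    calc (r : ℝ) = (r : ℝ) ^ (1 : ℝ) := (Real.rpow_one _).symm
      _ ≤ T := Real.rpow_le_rpow_of_exponent_le (by linarith) h7
  have hT0 : 0 < T := by linarith
  have hcore := core hFB1 hGEN hTWO hSEC hFRAT hCOI hBLK K (by omega) Z hZ.mono c hc r M (by omega)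
    h4c h4d h4e (by
      refine le_trans ?_ h5
      nlinarith) (by
      intro S' hS' hcard
      have h7 := h3 S' hS' ((Nat.cast_le.2 hcard).trans h4a) (2 * M) h4b
      refine le_trans ?_ h7
      have h8 : (1 / 2 : ℝ) ^ (2 * M) = Real.exp (-(Real.log 2 * ((2 * M : ℕ) : ℝ))) := by
        rw [show -(Real.log 2 * ((2 * M : ℕ) : ℝ)) = ((2 * M : ℕ) : ℝ) * (-Real.log 2) by ring,
          Real.exp_nat_mul, Real.exp_neg, Real.exp_log (by norm_num)]
        norm_num
      rw [h8]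
      apply Real.exp_le_exp.2
      apply neg_le_neg
      apply mul_le_mul_of_nonneg_right _ (Nat.cast_nonneg _)
      have h9 := exp_gamma_le_two
      have h10 : Real.exp Real.eulerMascheroniConstant / K ≤ 2 / 8 :=
        div_le_div₀ (by norm_num) h9 (by norm_num) hKR
      have h11 := Real.log_two_gt_d9
      linarith) ((r : ℝ) ^ (-(1 / 2) : ℝ)) (Real.rpow_nonneg (by linarith) _) h4f T hT0 β hβ a G hG
    hG2 (by
      refine h1.trans ?_
      apply mul_le_mul_of_nonneg_right hGc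
      apply mul_nonneg
      · apply Finset.prod_nonneg
        intro p hp
        have h8 : (1 : ℝ) ≤ p := by exact_mod_cast (mem_pr.1 hp).2.2.one_lt.le
        rw [sub_nonneg, div_le_one (by linarith)]
        exact h8
      · refine ((hFB1 _ M ?_).1 M le_rfl).1
        intro x hx
        rw [List.mem_map] at hx
        obtain ⟨p, hp, rfl⟩ := hx
        rw [Finset.mem_toList] at hp
        exact ⟨(fu1_le (by omega) (mem_pr.1 hp).1).1, fu1_mul_le (by omega) (mem_pr.1 hp).1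
          (by omega)⟩)
  refine hcore.trans ?_
  have h7 : 2 / T ≤ 2 / r := div_le_div_of_nonneg_left (by norm_num) (by linarith) hTr
  have h8 := num_small h6
  linarith

end Pool.Agent.Helper48.CR
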